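import Pool.Agent.Lib.MP_688fd0_co.OSF.Iface
import Pool.Agent.Lib.MP_688fd0_co.OSF.H38.FineGrp

/-!
MAIN: listing sequences in groups of fine odd squarefree order.
-/

set_option autoImplicit false

namespace Pool.Agent.Lib.MP_688fd0_co.OSF.H3

open Subgroup

universe u v w

/-- A subgroup of a cyclic normal subgroup is normal. -/
theorem normal_of_le_cyclic {G : Type u} [Group G] (H : Subgroup G) [H.Normal] [IsCyclic H]
    (C : Subgroup G) (hC : C ≤ H) : C.Normal := by
  refine ⟨fun x hx g => ?_⟩
  obtain ⟨m, hm⟩ := MonoidHom.map_cyclic (MulAut.conjNormal (H := H) g).toMonoidHom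
  have h1 := congrArg (fun y : H => (y : G)) (hm ⟨x, hC hx⟩)
  simp only [MulEquiv.toMonoidHom_eq_coe, MonoidHom.coe_coe, MulAut.conjNormal_apply,
    Subgroup.coe_zpow] at h1
  rw [h1]
  exact C.zpow_mem hx m

theorem Lst.mono {G : Type u} [Group G] {A A' : Set G} (h : A ⊆ A') (hA : Lst A) : Lst A' := by
  obtain ⟨a, h1, h2⟩ := hA
  exact ⟨a, fun i => h (h1 i), h2⟩

/-- The numerical estimates. -/
theorem big_le {ω r ρ P : ℕ} (hω : 1 ≤ ω) (hr : r ≤ ω) (hρ : ρ ≤ 2 * ω)
    (hP : (2 ^ ω) ^ 60 ≤ P) : big r ρ ≤ P ∧ 2 ^ ρ + 1 < P := by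
  obtain ⟨x, hx⟩ : ∃ x, x = 2 ^ ω := ⟨_, rfl⟩
  have h2 : 2 ≤ x := by
    rw [hx]
    calc 2 = 2 ^ 1 := by norm_num
      _ ≤ 2 ^ ω := Nat.pow_le_pow_right (by norm_num) hω
  have h3 : ω + 1 ≤ x := by rw [hx]; exact Nat.lt_two_pow_self
  have h4 : 2 ^ ρ ≤ x ^ 2 := by
    rw [hx, ← pow_mul, mul_comm ω 2]
    exact Nat.pow_le_pow_right (by norm_num) hρ
  have h5 : 2 ^ r ≤ x := by
    rw [hx]
    exact Nat.pow_le_pow_right (by norm_num) hr
  have hmul : ∀ k, x ^ k * 2 ≤ x ^ (k + 1) := fun k => by
    rw [pow_succ]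
    exact Nat.mul_le_mul_left _ h2
  have h6 : 10 ^ 6 ≤ x ^ 20 := le_trans (by norm_num) (Nat.pow_le_pow_left h2 20)
  have h7 : ρ + 1 ≤ x ^ 2 := by nlinarith
  have h8 : r + 1 ≤ x := by omega
  have h9 : r + 2 ≤ x ^ 2 := by nlinarith
  rw [← hx] at hP
  have h10 : 10 ^ 6 * (ρ + 1) * ((r + 1) * (r + 2) * 2 ^ r) ≤ x ^ 26 := by
    calc 10 ^ 6 * (ρ + 1) * ((r + 1) * (r + 2) * 2 ^ r)
        ≤ x ^ 20 * x ^ 2 * (x * x ^ 2 * x) :=
          Nat.mul_le_mul (Nat.mul_le_mul h6 h7) (Nat.mul_le_mul (Nat.mul_le_mul h8 h9) h5)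
      _ = x ^ 26 := by ring
  have h11 : 2 ^ (ρ + 1) ≤ x ^ 3 := by
    rw [pow_succ]
    exact (Nat.mul_le_mul_right 2 h4).trans (hmul 2)
  have h12 : x ^ 3 ≤ x ^ 26 := Nat.pow_le_pow_right (by omega) (by norm_num)
  have h13 : x ^ 27 ≤ x ^ 60 := Nat.pow_le_pow_right (by omega) (by norm_num)
  have h14 := hmul 26
  have h15 : x ^ 3 < x ^ 60 := Nat.pow_lt_pow_right (by omega) (by norm_num)
  have h16 := hmul 2
  have h17 : 1 < x ^ 2 := Nat.one_lt_pow (by norm_num) (by omega)
  simp only [Nat.reduceAdd] at h14 h16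
  constructor
  · unfold big
    omega
  · omega

/-- The main step for a small set of generators. -/
theorem step (hS : StrS.{u}) (hLi : LinegenS.{u, u}) (G : Type u) [Group G] [Finite G] (A : Set G)
    (hinv : ∀ x ∈ A, x⁻¹ ∈ A) (hA : closure A = ⊤) (hodd : Odd (Nat.card G))
    (hsq : Squarefree (Nat.card G)) (hfine : Fine 60 (Nat.card G))
    (hcard : Nat.card A ≤ 2 * (Nat.card G).primeFactors.card)
    (hone : ∀ g ∈ A, g ∈ commutator G → g = 1) : Lst A := by
  obtain ⟨P, hP, hP1, hP2⟩ := hfine
  have hCen : H38.Cen (Nat.card G) P := ⟨hP, hP1⟩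
  have hPp := hCen.prime
  have hz : IsZGroup G := IsZGroup.of_squarefree hsq
  have hcyc : IsCyclic (commutator G) := IsZGroup.isCyclic_commutator G
  have hω : 1 ≤ (Nat.card G).primeFactors.card := Finset.card_pos.2 ⟨P, hP⟩
  have hnd := H38.not_dvd_commutator hsq hCen
  have hcardG : Nat.card (Abelianization G) * Nat.card (commutator G) = Nat.card G :=
    (Subgroup.card_eq_card_quotient_mul_card_subgroup (commutator G)).symm
  have hPab : P ∣ Nat.card (Abelianization G) := by
    have h1 : P ∣ Nat.card (Abelianization G) * Nat.card (commutator G) := by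
      rw [hcardG]; exact Nat.dvd_of_mem_primeFactors hP
    exact (hPp.dvd_mul.mp h1).resolve_right hnd
  -- the direction
  have hcl : closure (Set.range fun s : A => Abelianization.of (s : G)) = ⊤ := by
    have h1 : (Set.range fun s : A => Abelianization.of (s : G)) = Abelianization.of '' A := by
      rw [Set.image_eq_range]
    rw [h1]
    change closure ((Abelianization.of : G →* Abelianization G) '' A) = ⊤
    rw [← MonoidHom.map_closure, hA, ← MonoidHom.range_eq_map, MonoidHom.range_eq_top]
    exact QuotientGroup.mk_surjective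
  obtain ⟨⟨a, ha⟩, ha1, ha2⟩ := hLi (Abelianization G) A (fun s => Abelianization.of (s : G)) P hPp hPab hcl
    (big_le (r := 0) hω (Nat.zero_le _) hcard hP2).2
  simp only at ha1 ha2
  -- the subgroup
  obtain ⟨C, hC⟩ : ∃ C, C = closure {x | ∃ s ∈ A, x = a * s * a⁻¹ * s⁻¹} := ⟨_, rfl⟩
  have hCle : C ≤ commutator G := by
    rw [hC, closure_le]
    rintro x ⟨s, _, rfl⟩
    rw [SetLike.mem_coe, commutator_eq_closure]
    exact subset_closure ⟨a, s, rfl⟩
  have hCn : C.Normal := normal_of_le_cyclic (commutator G) C hCle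
  have hCcyc : IsCyclic C := isCyclic_of_injective (inclusion hCle) (inclusion_injective hCle)
  have hCd : Nat.card C ∣ Nat.card (commutator G) := card_dvd_of_le hCle
  have hcop : (Nat.card C).Coprime C.index := by
    have h1 : Nat.card C * C.index = Nat.card G := C.card_mul_index
    rw [← h1] at hsq
    exact Nat.coprime_of_squarefree_mul hsq
  have hof : ∀ x ∈ C, Abelianization.of x = 1 := fun x hx => by
    rw [← MonoidHom.mem_ker, Abelianization.ker_of]; exact hCle hx
  -- the central element
  have := Fact.mk hPp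
  obtain ⟨u, hu⟩ := exists_prime_orderOf_dvd_card' (G := G) P (Nat.dvd_of_mem_primeFactors hP)
  have hucen : u ∈ center G := H38.mem_center_of_orderOf hsq hCen u (by rw [← hu]; exact pow_orderOf_eq_one u)
  have hou : orderOf (QuotientGroup.mk' C u) = P := by
    refine orderOf_eq_prime (by rw [← map_pow, ← hu, pow_orderOf_eq_one, map_one]) fun h => hnd ?_
    have h1 : u ∈ C := (QuotientGroup.eq_one_iff u).1 h
    have h2 := orderOf_dvd_natCard (⟨u, hCle h1⟩ : commutator G)
    rwa [orderOf_mk, hu] at h2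
  have hoa : P ≤ orderOf (QuotientGroup.mk' C a) := by
    refine Nat.le_of_dvd (orderOf_pos _) (ha1.trans ?_)
    rw [orderOf_dvd_iff_pow_eq_one]
    have h1 : QuotientGroup.mk' C (a ^ orderOf (QuotientGroup.mk' C a)) = 1 := by
      rw [map_pow, pow_orderOf_eq_one]
    have h2 := hof _ ((QuotientGroup.eq_one_iff _).1 h1)
    rwa [map_pow] at h2
  have hbig : big (Nat.card C).primeFactors.card (Nat.card A) ≤ P :=
    (big_le hω (Finset.card_le_card (Nat.primeFactors_mono (hCd.trans (card_subgroup_dvd_card _))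
      hsq.ne_zero)) hcard hP2).1
  refine hS G A C hCn a u hodd hinv hA ha hCcyc hcop hC (fun g hg hgC => hone g hg (hCle hgC)) ?_ ?_ ?_ ?_
  · intro s hs
    constructor
    · intro h
      have h1 := hof _ h
      rw [map_mul, map_pow] at h1
      exact (ha2 ⟨s, hs⟩).2 (eq_inv_of_mul_eq_one_left h1)
    · intro h
      have h1 := hof _ h
      rw [map_mul, map_pow, map_inv] at h1
      exact (ha2 ⟨s, hs⟩).1 (mul_inv_eq_one.1 h1)
  · intro c _
    exact (mem_center_iff.1 hucen c).symm
  · rw [hou]; exact hbig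
  · exact hbig.trans hoa

theorem main (hS : StrS.{u}) (hLo : LoopS.{u}) (hG : SmallgenS.{u}) (hLi : LinegenS.{u, u}) :
    MainS.{u} := by
  have key : ∀ n : ℕ, ∀ (G : Type u) [Group G] [Finite G] (A : Set G), Nat.card G = n →
      (∀ x ∈ A, x⁻¹ ∈ A) → closure A = ⊤ → Odd (Nat.card G) → Squarefree (Nat.card G) →
      Fine 60 (Nat.card G) → Lst A := by
    intro n
    induction n using Nat.strong_induction_on with
    | _ n ih =>
      intro G _ _ A hn hinv hA hodd hsq hfine
      obtain ⟨l, hl1, hl2, hl3⟩ := hG G A hsq hA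
      obtain ⟨A', hA'⟩ : ∃ A' : Set G, A' = {x | x ∈ l} ∪ {x | x⁻¹ ∈ l} := ⟨_, rfl⟩
      have hsub : A' ⊆ A := by
        rw [hA']
        rintro x (hx | hx)
        · exact hl1 x hx
        · have h1 := hinv _ (hl1 _ hx)
          rwa [inv_inv] at h1
      by_cases hone : ∀ g ∈ A', g ∈ commutator G → g = 1
      · refine Lst.mono hsub (step hS hLi G A' ?_ ?_ hodd hsq hfine ?_ hone)
        · intro x hx
          rw [hA'] at hx ⊢
          rcases hx with hx | hx
          · right
            change x⁻¹⁻¹ ∈ l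
            rw [inv_inv]; exact hx
          · left; exact hx
        · rw [eq_top_iff, ← hl3]
          refine closure_mono ?_
          rw [hA']
          exact Set.subset_union_left
        · classical
          have h1 : A' = ((l.toFinset ∪ l.toFinset.image (fun x => x⁻¹) : Finset G) : Set G) := by
            rw [hA']
            ext x
            simp only [Set.mem_union, Set.mem_ofPred_eq, Finset.coe_union, Finset.mem_coe,
              List.mem_toFinset, Finset.coe_image, Set.mem_image]
            refine or_congr Iff.rfl ⟨fun h => ⟨x⁻¹, h, inv_inv x⟩, ?_⟩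
            rintro ⟨y, hy, rfl⟩
            rw [inv_inv]; exact hy
          have h2 : Nat.card A' = (l.toFinset ∪ l.toFinset.image (fun x => x⁻¹)).card := by
            rw [Nat.card_coe_set_eq, h1, Set.ncard_coe_finset]
          rw [h2]
          refine (Finset.card_union_le _ _).trans ?_
          have h3 := List.toFinset_card_le l
          have h4 : (l.toFinset.image (fun x => x⁻¹)).card ≤ l.toFinset.card := Finset.card_image_le
          omega
      · push Not at hone
        obtain ⟨a, haA, hac, hane⟩ := hone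
        have hz : IsZGroup G := IsZGroup.of_squarefree hsq
        have hcyc : IsCyclic (commutator G) := IsZGroup.isCyclic_commutator G
        have hNn : (zpowers a).Normal := normal_of_le_cyclic (commutator G) _ (by
          rw [zpowers_le]; exact hac)
        refine hLo G A a (hsub haA) hNn ?_
        have hcq : Nat.card (G ⧸ zpowers a) * Nat.card (zpowers a) = Nat.card G :=
          (Subgroup.card_eq_card_quotient_mul_card_subgroup (zpowers a)).symm
        have hdq : Nat.card (G ⧸ zpowers a) ∣ Nat.card G := ⟨_, hcq.symm⟩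
        have ho : 1 < Nat.card (zpowers a) := by
          rw [Nat.card_zpowers]
          have h1 := orderOf_pos a
          have h2 : orderOf a ≠ 1 := fun h => hane (orderOf_eq_one_iff.1 h)
          omega
        have hpos : 0 < Nat.card (G ⧸ zpowers a) := Nat.card_pos
        refine ih (Nat.card (G ⧸ zpowers a)) ?_ (G ⧸ zpowers a) _ rfl ?_ ?_ ?_ ?_ ?_
        · rw [← hn, ← hcq]
          exact lt_mul_of_one_lt_right hpos ho
        · rintro _ ⟨x, hx, rfl⟩
          exact ⟨x⁻¹, hinv x hx, map_inv _ x⟩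
        · rw [← MonoidHom.map_closure, hA, ← MonoidHom.range_eq_map, MonoidHom.range_eq_top]
          exact QuotientGroup.mk'_surjective _
        · exact Odd.of_dvd_nat hodd hdq
        · exact hsq.squarefree_of_dvd hdq
        · obtain ⟨P, hP, hP1, hP2⟩ := hfine
          have hCen : H38.Cen (Nat.card G) P := ⟨hP, hP1⟩
          have hnd := H38.not_dvd_commutator hsq hCen
          have hsubp : (Nat.card (G ⧸ zpowers a)).primeFactors ⊆ (Nat.card G).primeFactors :=
            Nat.primeFactors_mono hdq hsq.ne_zero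
          refine ⟨P, ?_, fun q hq => hP1 q (hsubp hq), le_trans ?_ hP2⟩
          · refine Nat.mem_primeFactors.2 ⟨hCen.prime, ?_, hpos.ne'⟩
            have h1 : P ∣ Nat.card (G ⧸ zpowers a) * Nat.card (zpowers a) := by
              rw [hcq]; exact Nat.dvd_of_mem_primeFactors hP
            refine (hCen.prime.dvd_mul.1 h1).resolve_right fun h => hnd (h.trans ?_)
            exact card_dvd_of_le (by rw [zpowers_le]; exact hac)
          · exact Nat.pow_le_pow_left (Nat.pow_le_pow_right (by norm_num) (Finset.card_le_card hsubp)) 60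
  intro G _ _ A _ hinv hA hodd hsq hfine
  exact key _ G A rfl hinv hA hodd hsq hfine

end Pool.Agent.Lib.MP_688fd0_co.OSF.H3
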