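import Pool.Agent.Lib.MP_688fd0_co.OSF.Iface2
import Pool.Agent.Lib.MP_688fd0_co.OSF.H3.Main

/-!
MAIN2: listing sequences in groups of odd order with cyclic commutator subgroup.
-/

set_option autoImplicit false

namespace Pool.Agent.Lib.MP_688fd0_co.OSF.H3

open Subgroup

universe u v w

/-- Prime divisors of the order of the automorphism group of a cyclic group of squarefree order. -/
theorem card_mulAut {H : Type u} [Group H] [Finite H] [IsCyclic H] (hsq : Squarefree (Nat.card H)) {q : ℕ}
    (hq : q.Prime) (h : q ∣ Nat.card (MulAut H)) : ∃ p ∈ (Nat.card H).primeFactors, q ∣ p - 1 := by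
  rw [IsCyclic.card_mulAut] at h
  rw [Nat.totient_eq_prod_factorization hsq.ne_zero, Finsupp.prod, Nat.support_factorization,
    Prime.dvd_finsetProd_iff hq.prime] at h
  obtain ⟨p, hp, hqp⟩ := h
  have hpp := Nat.prime_of_mem_primeFactors hp
  have hf : (Nat.card H).factorization p = 1 := by
    have h1 := hsq.natFactorization_le_one p
    have h2 := hpp.factorization_pos_of_dvd hsq.ne_zero (Nat.dvd_of_mem_primeFactors hp)
    omega
  rw [hf] at hqp
  simp only [Nat.sub_self, pow_zero, one_mul] at hqp
  exact ⟨p, hp, hqp⟩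

/-- An element of order `P` centralises a cyclic normal subgroup of squarefree order. -/
theorem comm_of_pow {G : Type u} [Group G] [Finite G] (H : Subgroup G) [H.Normal] [IsCyclic H]
    (hsq : Squarefree (Nat.card H)) {P : ℕ} (hP : P.Prime) (h : ∀ p ∈ (Nat.card H).primeFactors, ¬ P ∣ p - 1)
    (u : G) (hu : u ^ P = 1) : ∀ c ∈ H, u * c = c * u := by
  intro c hc
  have h1 : (MulAut.conjNormal (H := H) u) ^ P = 1 := by
    rw [← map_pow, hu, map_one]
  have h2 : (MulAut.conjNormal (H := H) u) ^ Nat.card (MulAut H) = 1 := pow_card_eq_one'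
  have h3 : Nat.Coprime P (Nat.card (MulAut H)) := by
    rw [Nat.Prime.coprime_iff_not_dvd hP]
    intro h4
    obtain ⟨p, hp, hd⟩ := card_mulAut hsq hP h4
    exact h p hp hd
  have h4 : orderOf (MulAut.conjNormal (H := H) u) = 1 :=
    Nat.eq_one_of_dvd_coprimes h3 (orderOf_dvd_of_pow_eq_one h1) (orderOf_dvd_of_pow_eq_one h2)
  have h5 := congrArg (fun f => ((f ⟨c, hc⟩ : H) : G)) (orderOf_eq_one_iff.mp h4)
  simp only [MulAut.conjNormal_apply, MulAut.one_apply] at h5
  calc u * c = u * c * u⁻¹ * u := by group
    _ = c * u := by rw [h5]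

/-- The main step for a small set of generators. -/
theorem step2 (hS : StrS.{u}) (hLi : LinegenS.{u, u}) (G : Type u) [Group G] [Finite G] (A : Set G)
    (hinv : ∀ x ∈ A, x⁻¹ ∈ A) (hA : closure A = ⊤) (hodd : Odd (Nat.card G))
    (hcyc : IsCyclic (commutator G)) (hsq : Squarefree (Nat.card (commutator G)))
    (hco : (Nat.card (commutator G)).Coprime (commutator G).index)
    (P : ℕ) (hPp : P.Prime) (hPi : P ∣ (commutator G).index)
    (hPn : ∀ p ∈ (Nat.card (commutator G)).primeFactors, ¬ P ∣ p - 1)
    (hPb : 2 ^ (60 * (Nat.card G).primeFactorsList.length) ≤ P)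
    (hcard : Nat.card A ≤ 2 * (Nat.card G).primeFactorsList.length)
    (hone : ∀ g ∈ A, g ∈ commutator G → g = 1) : Lst A := by
  have hPG : P ∣ Nat.card G := hPi.trans (commutator G).index_dvd_card
  have hω : 1 ≤ (Nat.card G).primeFactorsList.length :=
    List.length_pos_of_mem ((Nat.mem_primeFactorsList Nat.card_pos.ne').2 ⟨hPp, hPG⟩)
  have hP2 : (2 ^ (Nat.card G).primeFactorsList.length) ^ 60 ≤ P := by
    rw [← pow_mul, mul_comm]; exact hPb
  have hnd : ¬ P ∣ Nat.card (commutator G) := fun h =>
    hPp.one_lt.ne' (Nat.eq_one_of_dvd_coprimes hco h hPi)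
  -- the direction
  have hcl : closure (Set.range fun s : A => Abelianization.of (s : G)) = ⊤ := by
    have h1 : (Set.range fun s : A => Abelianization.of (s : G)) = Abelianization.of '' A := by
      rw [Set.image_eq_range]
    rw [h1]
    change closure ((Abelianization.of : G →* Abelianization G) '' A) = ⊤
    rw [← MonoidHom.map_closure, hA, ← MonoidHom.range_eq_map, MonoidHom.range_eq_top]
    exact QuotientGroup.mk_surjective
  obtain ⟨⟨a, ha⟩, ha1, ha2⟩ := hLi (Abelianization G) A (fun s => Abelianization.of (s : G)) P hPp hPi hcl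
    (big_le (r := 0) hω (Nat.zero_le _) hcard hP2).2
  simp only at ha1 ha2
  -- the subgroup
  obtain ⟨C, hC⟩ : ∃ C, C = closure {x | ∃ s ∈ A, x = a * s * a⁻¹ * s⁻¹} := ⟨_, rfl⟩
  have hCle : C ≤ commutator G := by
    rw [hC, closure_le]
    rintro x ⟨s, _, rfl⟩
    rw [SetLike.mem_coe, commutator_eq_closure]
    exact subset_closure ⟨a, s, rfl⟩
  have hCn : C.Normal := normal_of_le_cyclic (commutator G) C hCle
  have hCcyc : IsCyclic C := isCyclic_of_injective (inclusion hCle) (inclusion_injective hCle)
  have hCd : Nat.card C ∣ Nat.card (commutator G) := card_dvd_of_le hCle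
  have hcop : (Nat.card C).Coprime C.index := by
    rw [← relIndex_mul_index hCle]
    refine Nat.Coprime.mul_right ?_ (hco.coprime_dvd_left hCd)
    have h1 : Nat.card C * C.relIndex (commutator G) = Nat.card (commutator G) := by
      have h2 := (C.subgroupOf (commutator G)).card_mul_index
      rwa [Nat.card_congr (subgroupOfEquivOfLe hCle).toEquiv] at h2
    rw [← h1] at hsq
    exact Nat.coprime_of_squarefree_mul hsq
  have hof : ∀ x ∈ C, Abelianization.of x = 1 := fun x hx => by
    rw [← MonoidHom.mem_ker, Abelianization.ker_of]; exact hCle hx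
  -- the central element
  have := Fact.mk hPp
  obtain ⟨u, hu⟩ := exists_prime_orderOf_dvd_card' (G := G) P hPG
  have hucen := comm_of_pow (commutator G) hsq hPp hPn u (by rw [← hu]; exact pow_orderOf_eq_one u)
  have hou : orderOf (QuotientGroup.mk' C u) = P := by
    refine orderOf_eq_prime (by rw [← map_pow, ← hu, pow_orderOf_eq_one, map_one]) fun h => hnd ?_
    have h1 : u ∈ C := (QuotientGroup.eq_one_iff u).1 h
    have h2 := orderOf_dvd_natCard (⟨u, hCle h1⟩ : commutator G)
    rwa [orderOf_mk, hu] at h2
  have hoa : P ≤ orderOf (QuotientGroup.mk' C a) := by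
    refine Nat.le_of_dvd (orderOf_pos _) (ha1.trans ?_)
    rw [orderOf_dvd_iff_pow_eq_one]
    have h1 : QuotientGroup.mk' C (a ^ orderOf (QuotientGroup.mk' C a)) = 1 := by
      rw [map_pow, pow_orderOf_eq_one]
    have h2 := hof _ ((QuotientGroup.eq_one_iff _).1 h1)
    rwa [map_pow] at h2
  have hpf : (Nat.card C).primeFactors.card ≤ (Nat.card G).primeFactorsList.length :=
    (Finset.card_le_card (Nat.primeFactors_mono (hCd.trans (card_subgroup_dvd_card _)) Nat.card_pos.ne')).trans
      (List.toFinset_card_le _)
  have hbig : big (Nat.card C).primeFactors.card (Nat.card A) ≤ P := (big_le hω hpf hcard hP2).1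
  refine hS G A C hCn a u hodd hinv hA ha hCcyc hcop hC (fun g hg hgC => hone g hg (hCle hgC)) ?_ ?_ ?_ ?_
  · intro s hs
    constructor
    · intro h
      have h1 := hof _ h
      rw [map_mul, map_pow] at h1
      exact (ha2 ⟨s, hs⟩).2 (eq_inv_of_mul_eq_one_left h1)
    · intro h
      have h1 := hof _ h
      rw [map_mul, map_pow, map_inv] at h1
      exact (ha2 ⟨s, hs⟩).1 (mul_inv_eq_one.1 h1)
  · intro c hc
    exact hucen c (hCle hc)
  · rw [hou]; exact hbig
  · exact hbig.trans hoa

theorem main2 (hS : StrS.{u}) (hLo : LoopS.{u}) (hG : Smallgen2S.{u}) (hLi : LinegenS.{u, u}) :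
    Main2S.{u} := by
  have key : ∀ n : ℕ, ∀ (G : Type u) [Group G] [Finite G] (A : Set G), Nat.card G = n →
      (∀ x ∈ A, x⁻¹ ∈ A) → closure A = ⊤ → Odd (Nat.card G) → IsCyclic (commutator G) →
      Squarefree (Nat.card (commutator G)) → (Nat.card (commutator G)).Coprime (commutator G).index →
      ∀ P : ℕ, P.Prime → P ∣ (commutator G).index →
      (∀ p ∈ (Nat.card (commutator G)).primeFactors, ¬ P ∣ p - 1) →
      2 ^ (60 * (Nat.card G).primeFactorsList.length) ≤ P → Lst A := by
    intro n
    induction n using Nat.strong_induction_on with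
    | _ n ih =>
      intro G _ _ A hn hinv hA hodd hcyc hsq hco P hPp hPi hPn hPb
      obtain ⟨l, hl1, hl2, hl3⟩ := hG G A hA
      obtain ⟨A', hA'⟩ : ∃ A' : Set G, A' = {x | x ∈ l} ∪ {x | x⁻¹ ∈ l} := ⟨_, rfl⟩
      have hsub : A' ⊆ A := by
        rw [hA']
        rintro x (hx | hx)
        · exact hl1 x hx
        · have h1 := hinv _ (hl1 _ hx)
          rwa [inv_inv] at h1
      by_cases hone : ∀ g ∈ A', g ∈ commutator G → g = 1
      · refine Lst.mono hsub (step2 hS hLi G A' ?_ ?_ hodd hcyc hsq hco P hPp hPi hPn hPb ?_ hone)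
        · intro x hx
          rw [hA'] at hx ⊢
          rcases hx with hx | hx
          · right
            change x⁻¹⁻¹ ∈ l
            rw [inv_inv]; exact hx
          · left; exact hx
        · rw [eq_top_iff, ← hl3]
          refine closure_mono ?_
          rw [hA']
          exact Set.subset_union_left
        · classical
          have h1 : A' = ((l.toFinset ∪ l.toFinset.image (fun x => x⁻¹) : Finset G) : Set G) := by
            rw [hA']
            ext x
            simp only [Set.mem_union, Set.mem_ofPred_eq, Finset.coe_union, Finset.mem_coe,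
              List.mem_toFinset, Finset.coe_image, Set.mem_image]
            refine or_congr Iff.rfl ⟨fun h => ⟨x⁻¹, h, inv_inv x⟩, ?_⟩
            rintro ⟨y, hy, rfl⟩
            rw [inv_inv]; exact hy
          have h2 : Nat.card A' = (l.toFinset ∪ l.toFinset.image (fun x => x⁻¹)).card := by
            rw [Nat.card_coe_set_eq, h1, Set.ncard_coe_finset]
          rw [h2]
          refine (Finset.card_union_le _ _).trans ?_
          have h3 := List.toFinset_card_le l
          have h4 : (l.toFinset.image (fun x => x⁻¹)).card ≤ l.toFinset.card := Finset.card_image_le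
          omega
      · push Not at hone
        obtain ⟨a, haA, hac, hane⟩ := hone
        have hle : zpowers a ≤ commutator G := by rw [zpowers_le]; exact hac
        have hNn : (zpowers a).Normal := normal_of_le_cyclic (commutator G) _ hle
        refine hLo G A a (hsub haA) hNn ?_
        have hcq : Nat.card (G ⧸ zpowers a) * Nat.card (zpowers a) = Nat.card G :=
          (Subgroup.card_eq_card_quotient_mul_card_subgroup (zpowers a)).symm
        have hdq : Nat.card (G ⧸ zpowers a) ∣ Nat.card G := ⟨_, hcq.symm⟩
        have ho : 1 < Nat.card (zpowers a) := by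
          rw [Nat.card_zpowers]
          have h1 := orderOf_pos a
          have h2 : orderOf a ≠ 1 := fun h => hane (orderOf_eq_one_iff.1 h)
          omega
        have hpos : 0 < Nat.card (G ⧸ zpowers a) := Nat.card_pos
        have hsurj := QuotientGroup.mk'_surjective (zpowers a)
        have hmap : commutator (G ⧸ zpowers a) = (commutator G).map (QuotientGroup.mk' (zpowers a)) := by
          rw [commutator_def, commutator_def, map_commutator, ← MonoidHom.range_eq_map,
            MonoidHom.range_eq_top.2 hsurj]
        have hidx : (commutator (G ⧸ zpowers a)).index = (commutator G).index := by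
          rw [hmap]
          exact index_map_eq _ hsurj (by rw [QuotientGroup.ker_mk']; exact hle)
        have hdvd : Nat.card (commutator (G ⧸ zpowers a)) ∣ Nat.card (commutator G) := by
          rw [hmap]
          exact card_map_dvd _ _
        have hcyc' : IsCyclic (commutator (G ⧸ zpowers a)) := by
          rw [hmap]
          exact isCyclic_of_surjective ((QuotientGroup.mk' (zpowers a)).subgroupMap (commutator G))
            ((QuotientGroup.mk' (zpowers a)).subgroupMap_surjective (commutator G))
        refine ih (Nat.card (G ⧸ zpowers a)) ?_ (G ⧸ zpowers a) _ rfl ?_ ?_ ?_ hcyc'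
          (hsq.squarefree_of_dvd hdvd) ?_ P hPp (by rw [hidx]; exact hPi) ?_ ?_
        · rw [← hn, ← hcq]
          exact lt_mul_of_one_lt_right hpos ho
        · rintro _ ⟨x, hx, rfl⟩
          exact ⟨x⁻¹, hinv x hx, map_inv _ x⟩
        · rw [← MonoidHom.map_closure, hA, ← MonoidHom.range_eq_map, MonoidHom.range_eq_top]
          exact hsurj
        · exact Odd.of_dvd_nat hodd hdq
        · rw [hidx]
          exact hco.coprime_dvd_left hdvd
        · intro p hp
          exact hPn p (Nat.primeFactors_mono hdvd Nat.card_pos.ne' hp)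
        · refine le_trans (Nat.pow_le_pow_right (by norm_num) (Nat.mul_le_mul_left 60 ?_)) hPb
          exact (Nat.primeFactorsList_sublist_of_dvd hdq Nat.card_pos.ne').length_le
  intro G _ _ A _ hinv hA hodd hcyc hsq hco P hPp hPi hPn hPb
  exact key _ G A rfl hinv hA hodd hcyc hsq hco P hPp hPi hPn hPb

end Pool.Agent.Lib.MP_688fd0_co.OSF.H3
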